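import Mathlib

set_option autoImplicit false

open scoped Classical

namespace Pool.Agent.Helper943.Comb

noncomputable section

/-- The Cayley graph of `G` with respect to `S` as a simple graph: `g` and `h` are joined if they
differ by right multiplication by an element of `S`. -/
def cayley {G : Type} [Group G] (S : Finset G) : SimpleGraph G :=
  SimpleGraph.fromRel (fun g h : G => ∃ s ∈ S, h = g * s)

/-- A point of the geometric realisation of the Cayley graph: either the point of the edge from `v`
to `w` at distance `t` from `v`, or (if `v = w` and `t = 0`) the vertex `v`. -/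
structure CayPt {G : Type} [Group G] (S : Finset G) (hS : Subgroup.closure (S : Set G) = ⊤) where
  v : G
  w : G
  t : ℝ
  t_nonneg : 0 ≤ t
  t_le_one : t ≤ 1
  adj : (cayley S).Adj v w ∨ (v = w ∧ t = 0)

variable {G : Type} [Group G] {S : Finset G} {hS : Subgroup.closure (S : Set G) = ⊤}

/-- The length of a shortest path between two points that passes through a vertex: the minimum over
the choice of an end point of the edge of `p` and an end point of the edge of `q`. -/
def CayPt.via (p q : CayPt S hS) : ℝ :=
  min (min (p.t + (cayley S).dist p.v q.v + q.t) (p.t + (cayley S).dist p.v q.w + (1 - q.t)))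
    (min ((1 - p.t) + (cayley S).dist p.w q.v + q.t) ((1 - p.t) + (cayley S).dist p.w q.w + (1 - q.t)))

/-- The path metric of the geometric realisation, every edge having length `1`. -/
def CayPt.d (p q : CayPt S hS) : ℝ :=
  if p.v = q.v ∧ p.w = q.w then |p.t - q.t|
  else if p.v = q.w ∧ p.w = q.v then |p.t - (1 - q.t)|
  else p.via q


theorem cayley_reach (hS : Subgroup.closure (S : Set G) = ⊤) (g h : G) :
    (cayley S).Reachable g h := by
  have key : ∀ x ∈ Subgroup.closure (S : Set G), ∀ g : G, (cayley S).Reachable g (g * x) := by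
    intro x hx
    induction hx using Subgroup.closure_induction with
    | mem s hs =>
      intro g
      by_cases h : g = g * s
      · rw [← h]
      · apply SimpleGraph.Adj.reachable
        rw [cayley, SimpleGraph.fromRel_adj]
        exact ⟨h, Or.inl ⟨s, hs, rfl⟩⟩
    | one => intro g; rw [mul_one]
    | mul x y _ _ hx hy =>
      intro g
      have := (hx g).trans (hy (g * x))
      rwa [mul_assoc] at this
    | inv x _ hx =>
      intro g
      have := (hx (g * x⁻¹)).symm
      rwa [inv_mul_cancel_right] at this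
  have := key (g⁻¹ * h) (by rw [hS]; trivial) g
  rwa [mul_inv_cancel_left] at this

theorem cayley_tri (hS : Subgroup.closure (S : Set G) = ⊤) (a b c : G) :
    ((cayley S).dist a c : ℝ) ≤ (cayley S).dist a b + (cayley S).dist b c := by
  have : Nonempty G := ⟨1⟩
  have hc : (cayley S).Connected := ⟨fun g h => cayley_reach hS g h⟩
  exact_mod_cast hc.dist_triangle

theorem CayPt.len (p : CayPt S hS) : ((cayley S).dist p.v p.w : ℝ) ≤ 1 := by
  rcases p.adj with h | ⟨h, _⟩
  · rw [SimpleGraph.dist_eq_one_iff_adj.mpr h]; norm_num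
  · rw [h, SimpleGraph.dist_self]; norm_num

theorem CayPt.d_self (p : CayPt S hS) : p.d p = 0 := by
  unfold CayPt.d
  rw [if_pos ⟨rfl, rfl⟩, sub_self, abs_zero]

theorem CayPt.via_comm (p q : CayPt S hS) : p.via q = q.via p := by
  unfold CayPt.via
  rw [(cayley S).dist_comm (u := q.v) (v := p.v), (cayley S).dist_comm (u := q.v) (v := p.w),
    (cayley S).dist_comm (u := q.w) (v := p.v), (cayley S).dist_comm (u := q.w) (v := p.w),
    min_min_min_comm]
  congr 2 <;> ring_nf

theorem CayPt.d_comm (p q : CayPt S hS) : p.d q = q.d p := by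
  unfold CayPt.d
  by_cases h1 : p.v = q.v ∧ p.w = q.w
  · rw [if_pos h1, if_pos ⟨h1.1.symm, h1.2.symm⟩, abs_sub_comm]
  · have h1' : ¬ (q.v = p.v ∧ q.w = p.w) := fun h => h1 ⟨h.1.symm, h.2.symm⟩
    rw [if_neg h1, if_neg h1']
    by_cases h2 : p.v = q.w ∧ p.w = q.v
    · have h2' : q.v = p.w ∧ q.w = p.v := ⟨h2.2.symm, h2.1.symm⟩
      rw [if_pos h2, if_pos h2']
      rw [show p.t - (1 - q.t) = q.t - (1 - p.t) by ring]
    · have h2' : ¬ (q.v = p.w ∧ q.w = p.v) := fun h => h2 ⟨h.2.symm, h.1.symm⟩
      rw [if_neg h2, if_neg h2']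
      exact p.via_comm q

/-- distance from a point to a vertex -/
def CayPt.dl (p : CayPt S hS) (u : G) : ℝ :=
  min (p.t + (cayley S).dist p.v u) ((1 - p.t) + (cayley S).dist p.w u)

theorem CayPt.via_eq (p q : CayPt S hS) :
    p.via q = min (p.dl q.v + q.t) (p.dl q.w + (1 - q.t)) := by
  unfold CayPt.via CayPt.dl
  rw [min_min_min_comm, min_add_add_right, min_add_add_right]

theorem CayPt.d_le_via (p q : CayPt S hS) : p.d q ≤ p.via q := by
  have p0 := p.t_nonneg
  have p1 := p.t_le_one
  have q0 := q.t_nonneg
  have q1 := q.t_le_one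
  have hn : ∀ a b : G, (0 : ℝ) ≤ (cayley S).dist a b := fun a b => Nat.cast_nonneg _
  unfold CayPt.d
  split_ifs with h1 h2
  · unfold CayPt.via
    have n1 := hn p.v q.v
    have n2 := hn p.v q.w
    have n3 := hn p.w q.v
    have n4 := hn p.w q.w
    rcases p.adj with hp | ⟨hp, hp0⟩
    · have e1 : ((cayley S).dist p.v q.w : ℝ) = 1 := by
        rw [← h1.2, SimpleGraph.dist_eq_one_iff_adj.mpr hp]; norm_num
      have e2 : ((cayley S).dist p.w q.v : ℝ) = 1 := by
        rw [← h1.1, SimpleGraph.dist_eq_one_iff_adj.mpr hp.symm]; norm_num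
      rw [e1, e2]
      refine le_min (le_min ?_ ?_) (le_min ?_ ?_) <;> rw [abs_le] <;> constructor <;> linarith
    · rcases q.adj with hq | ⟨hq, hq0⟩
      · exact absurd (h1.1.symm.trans (hp.trans h1.2)) hq.ne
      · rw [hp0, hq0]
        rw [hp0] at p0 p1
        rw [hq0] at q0 q1
        refine le_min (le_min ?_ ?_) (le_min ?_ ?_) <;> rw [abs_le] <;> constructor <;> linarith
  · unfold CayPt.via
    have n1 := hn p.v q.v
    have n2 := hn p.v q.w
    have n3 := hn p.w q.v
    have n4 := hn p.w q.w
    rcases p.adj with hp | ⟨hp, hp0⟩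
    · have e1 : ((cayley S).dist p.v q.v : ℝ) = 1 := by
        rw [← h2.2, SimpleGraph.dist_eq_one_iff_adj.mpr hp]; norm_num
      have e2 : ((cayley S).dist p.w q.w : ℝ) = 1 := by
        rw [← h2.1, SimpleGraph.dist_eq_one_iff_adj.mpr hp.symm]; norm_num
      rw [e1, e2]
      refine le_min (le_min ?_ ?_) (le_min ?_ ?_) <;> rw [abs_le] <;> constructor <;> linarith
    · exact absurd ⟨hp.trans h2.2, hp.symm.trans h2.1⟩ h1
  · exact le_rfl

theorem CayPt.dl_le (p q : CayPt S hS) (u : G) : p.dl u ≤ p.d q + q.dl u := by
  have p0 := p.t_nonneg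
  have p1 := p.t_le_one
  have q0 := q.t_nonneg
  have q1 := q.t_le_one
  have hn : ∀ a b : G, (0 : ℝ) ≤ (cayley S).dist a b := fun a b => Nat.cast_nonneg _
  have lq := q.len
  have lq' : ((cayley S).dist q.w q.v : ℝ) ≤ 1 := by rw [(cayley S).dist_comm]; exact lq
  have A1 : p.dl u ≤ p.t + (cayley S).dist p.v u := min_le_left _ _
  have A2 : p.dl u ≤ (1 - p.t) + (cayley S).dist p.w u := min_le_right _ _
  unfold CayPt.d
  split_ifs with h1 h2
  · have e := abs_le.mp (le_refl |p.t - q.t|)
    rw [h1.1] at A1
    rw [h1.2] at A2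
    rcases min_choice (q.t + ((cayley S).dist q.v u : ℝ)) ((1 - q.t) + (cayley S).dist q.w u) with h | h
    · have B : q.dl u = q.t + ((cayley S).dist q.v u : ℝ) := h
      rw [B]; linarith [e.1, e.2]
    · have B : q.dl u = (1 - q.t) + ((cayley S).dist q.w u : ℝ) := h
      rw [B]; linarith [e.1, e.2]
  · have e := abs_le.mp (le_refl |p.t - (1 - q.t)|)
    rw [h2.1] at A1
    rw [h2.2] at A2
    rcases min_choice (q.t + ((cayley S).dist q.v u : ℝ)) ((1 - q.t) + (cayley S).dist q.w u) with h | h
    · have B : q.dl u = q.t + ((cayley S).dist q.v u : ℝ) := h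
      rw [B]; linarith [e.1, e.2]
    · have B : q.dl u = (1 - q.t) + ((cayley S).dist q.w u : ℝ) := h
      rw [B]; linarith [e.1, e.2]
  · have t1 := cayley_tri hS p.v q.v u
    have t2 := cayley_tri hS p.v q.w u
    have t3 := cayley_tri hS p.w q.v u
    have t4 := cayley_tri hS p.w q.w u
    have t5 := cayley_tri hS q.v q.w u
    have t6 := cayley_tri hS q.w q.v u
    have key : p.dl u - q.dl u ≤ p.via q := by
      unfold CayPt.via
      rcases min_choice (q.t + ((cayley S).dist q.v u : ℝ)) ((1 - q.t) + (cayley S).dist q.w u) with h | h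
      · have B : q.dl u = q.t + ((cayley S).dist q.v u : ℝ) := h
        rw [B]
        refine le_min (le_min ?_ ?_) (le_min ?_ ?_) <;> linarith
      · have B : q.dl u = (1 - q.t) + ((cayley S).dist q.w u : ℝ) := h
        rw [B]
        refine le_min (le_min ?_ ?_) (le_min ?_ ?_) <;> linarith
    linarith

theorem CayPt.tri_via (p q r : CayPt S hS) : p.d r ≤ p.d q + q.via r := by
  have h1 := p.dl_le q r.v
  have h2 := p.dl_le q r.w
  have h3 := p.d_le_via r
  have h4 : p.via r - p.d q ≤ q.via r := by
    rw [p.via_eq r, q.via_eq r]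
    refine le_min ?_ ?_
    · have := min_le_left (p.dl r.v + r.t) (p.dl r.w + (1 - r.t))
      linarith
    · have := min_le_right (p.dl r.v + r.t) (p.dl r.w + (1 - r.t))
      linarith
  linarith

theorem CayPt.d_triangle (p q r : CayPt S hS) : p.d r ≤ p.d q + q.d r := by
  by_cases hqr : (q.v = r.v ∧ q.w = r.w) ∨ (q.v = r.w ∧ q.w = r.v)
  · by_cases hpq : (p.v = q.v ∧ p.w = q.w) ∨ (p.v = q.w ∧ p.w = q.v)
    · have p0 := p.t_nonneg
      have p1 := p.t_le_one
      have q0 := q.t_nonneg
      have q1 := q.t_le_one
      have r0 := r.t_nonneg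
      have r1 := r.t_le_one
      have e1 := abs_le.mp (le_refl |p.t - q.t|)
      have e2 := abs_le.mp (le_refl |p.t - (1 - q.t)|)
      have e3 := abs_le.mp (le_refl |q.t - r.t|)
      have e4 := abs_le.mp (le_refl |q.t - (1 - r.t)|)
      have deg : p.v = p.w → p.t = 0 := by
        intro h
        rcases p.adj with hp | ⟨_, hp⟩
        · exact absurd h hp.ne
        · exact hp
      have deg' : q.v = q.w → q.t = 0 := by
        intro h
        rcases q.adj with hp | ⟨_, hp⟩
        · exact absurd h hp.ne
        · exact hp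
      have deg'' : r.v = r.w → r.t = 0 := by
        intro h
        rcases r.adj with hp | ⟨_, hp⟩
        · exact absurd h hp.ne
        · exact hp
      by_cases hd : p.v = p.w
      · have z1 := deg hd
        have hq : q.v = q.w := by
          rcases hpq with h | h
          · exact h.1.symm.trans (hd.trans h.2)
          · exact h.2.symm.trans (hd.symm.trans h.1)
        have z2 := deg' hq
        have hr : r.v = r.w := by
          rcases hqr with h | h
          · exact h.1.symm.trans (hq.trans h.2)
          · exact h.2.symm.trans (hq.symm.trans h.1)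
        have z3 := deg'' hr
        have hpr : p.v = r.v ∧ p.w = r.w := by
          rcases hpq with h | h <;> rcases hqr with h' | h'
          · exact ⟨h.1.trans h'.1, h.2.trans h'.2⟩
          · exact ⟨h.1.trans (h'.1.trans hr.symm), h.2.trans (h'.2.trans hr)⟩
          · exact ⟨h.1.trans (h'.2.trans hr.symm), h.2.trans (h'.1.trans hr)⟩
          · exact ⟨h.1.trans h'.2, h.2.trans h'.1⟩
        have : p.d r = 0 := by
          unfold CayPt.d
          rw [if_pos hpr, z1, z3, sub_self, abs_zero]
        rw [this]
        have n1 : 0 ≤ p.d q := by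
          unfold CayPt.d
          rcases hpq with h | h
          · rw [if_pos h]; exact abs_nonneg _
          · split_ifs
            · exact abs_nonneg _
            · exact abs_nonneg _
        have n2 : 0 ≤ q.d r := by
          unfold CayPt.d
          rcases hqr with h | h
          · rw [if_pos h]; exact abs_nonneg _
          · split_ifs
            · exact abs_nonneg _
            · exact abs_nonneg _
        linarith
      · -- nondegenerate edge
        rcases hpq with h | h <;> rcases hqr with h' | h'
        · have hpr : p.v = r.v ∧ p.w = r.w := ⟨h.1.trans h'.1, h.2.trans h'.2⟩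
          unfold CayPt.d
          rw [if_pos hpr, if_pos h, if_pos h']
          rw [abs_le]; constructor <;> linarith [e1.1, e1.2, e3.1, e3.2]
        · have hpr : p.v = r.w ∧ p.w = r.v := ⟨h.1.trans h'.1, h.2.trans h'.2⟩
          have n1 : ¬ (p.v = r.v ∧ p.w = r.w) := fun x => hd (x.1.trans hpr.2.symm)
          have n2 : ¬ (q.v = r.v ∧ q.w = r.w) := fun x => hd (h.1.trans (x.1.trans hpr.2.symm))
          unfold CayPt.d
          rw [if_neg n1, if_pos hpr, if_pos h, if_neg n2, if_pos h']
          rw [abs_le]; constructor <;> linarith [e1.1, e1.2, e4.1, e4.2]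
        · have hpr : p.v = r.w ∧ p.w = r.v := ⟨h.1.trans h'.2, h.2.trans h'.1⟩
          have n1 : ¬ (p.v = r.v ∧ p.w = r.w) := fun x => hd (x.1.trans hpr.2.symm)
          have n2 : ¬ (p.v = q.v ∧ p.w = q.w) := fun x => hd (x.1.trans h.2.symm)
          unfold CayPt.d
          rw [if_neg n1, if_pos hpr, if_neg n2, if_pos h, if_pos h']
          rw [abs_le]; constructor <;> linarith [e2.1, e2.2, e3.1, e3.2]
        · have hpr : p.v = r.v ∧ p.w = r.w := ⟨h.1.trans h'.2, h.2.trans h'.1⟩
          have n1 : ¬ (p.v = q.v ∧ p.w = q.w) := fun x => hd (x.1.trans h.2.symm)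
          have n2 : ¬ (q.v = r.v ∧ q.w = r.w) := fun x =>
            hd (hpr.1.trans (x.1.symm.trans h.2.symm))
          unfold CayPt.d
          rw [if_pos hpr, if_neg n1, if_pos h, if_neg n2, if_pos h']
          rw [abs_le]; constructor <;> linarith [e2.1, e2.2, e4.1, e4.2]
    · have := r.tri_via q p
      rw [r.d_comm p, r.d_comm q, q.via_comm p] at this
      have e : p.d q = p.via q := by
        unfold CayPt.d
        rw [if_neg (fun h => hpq (Or.inl h)), if_neg (fun h => hpq (Or.inr h))]
      rw [e]
      linarith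
  · have := p.tri_via q r
    have e : q.d r = q.via r := by
      unfold CayPt.d
      rw [if_neg (fun h => hqr (Or.inl h)), if_neg (fun h => hqr (Or.inr h))]
    rw [e]
    exact this

/-- The path pseudometric on the points of the Cayley graph (two descriptions of the same point have
distance `0`). -/
instance : PseudoMetricSpace (CayPt S hS) where
  dist := CayPt.d
  dist_self := CayPt.d_self
  dist_comm := CayPt.d_comm
  dist_triangle := CayPt.d_triangle

/-- The Cayley graph of `G` with respect to the finite generating set `S`, as a metric space with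
edges of length `1`: points at distance `0` are identified. -/
def CayleyGraph {G : Type} [Group G] (S : Finset G) (hS : Subgroup.closure (S : Set G) = ⊤) : Type :=
  SeparationQuotient (CayPt S hS)

instance : MetricSpace (CayleyGraph S hS) :=
  inferInstanceAs (MetricSpace (SeparationQuotient (CayPt S hS)))

/-- The vertex `g` of the Cayley graph. -/
def vertex {G : Type} [Group G] (S : Finset G) (hS : Subgroup.closure (S : Set G) = ⊤) (g : G) :
    CayleyGraph S hS :=
  SeparationQuotient.mk ⟨g, g, 0, le_rfl, zero_le_one, Or.inr ⟨rfl, rfl⟩⟩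

/-- A `(k, ε)`-broken path `[0, b] → X` starting at `x₀`, not necessarily continuous (the values of
`toFun` outside `[0, b]` are irrelevant). -/
structure BrokenPath {X : Type} [PseudoMetricSpace X] (x₀ : X) (k ε : ℝ) where
  b : ℝ
  b_nonneg : 0 ≤ b
  toFun : ℝ → X
  start : toFun 0 = x₀
  broken : ∀ s t : ℝ, 0 ≤ s → s ≤ b → 0 ≤ t → t ≤ b → dist (toFun s) (toFun t) ≤ k * |s - t| + ε

/-- The extension of a broken path to `[0, ∞)` by its end point. -/
def BrokenPath.ext {X : Type} [PseudoMetricSpace X] {x₀ : X} {k ε : ℝ} (p : BrokenPath x₀ k ε)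
    (t : ℝ) : X := p.toFun (min t p.b)

/-- The distance `d_P` of two broken paths: the supremum of the distances at equal times plus the
difference of the lengths of the domains. -/
def dP {X : Type} [PseudoMetricSpace X] {x₀ : X} {k ε : ℝ} (p q : BrokenPath x₀ k ε) : ℝ :=
  (⨆ t : {t : ℝ // 0 ≤ t}, dist (p.ext t) (q.ext t)) + |p.b - q.b|

/-- `X` with base point `x₀` is combable: for some `k ≥ 1`, `ε ≥ 0` there is a map `σ` from `X` to
the `(k, ε)`-broken paths from `x₀` such that `σ x` ends at `x` and `σ` is a quasi-isometric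
embedding with respect to `d_P`. -/
def IsCombable (X : Type) [PseudoMetricSpace X] (x₀ : X) : Prop :=
  ∃ k ε : ℝ, 1 ≤ k ∧ 0 ≤ ε ∧ ∃ σ : X → BrokenPath x₀ k ε,
    (∀ x, (σ x).toFun (σ x).b = x) ∧
    ∃ l c : ℝ, 1 ≤ l ∧ 0 ≤ c ∧ ∀ x y : X,
      l⁻¹ * dist x y - c ≤ dP (σ x) (σ y) ∧ dP (σ x) (σ y) ≤ l * dist x y + c

/-- A group is combable if it has a finite generating set such that the Cayley graph, with the
vertex `1` as base point, is combable. -/
def IsCombableGroup (G : Type) [Group G] : Prop :=
  ∃ (S : Finset G) (hS : Subgroup.closure (S : Set G) = ⊤),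
    IsCombable (CayleyGraph S hS) (vertex S hS 1)

/-- The element represented by a word over the finite set `A`. -/
def val {G : Type} [Group G] {A : Finset G} (w : List {a : G // a ∈ A}) : G :=
  (w.map Subtype.val).prod

/-- `G` is automatic: there are a finite generating set `A` closed under inverses, a regular language
`L` over `A` mapping onto `G` and a constant `K` such that if `u, v ∈ L` represent elements at
distance at most `1` in the Cayley graph then the initial segments of length `t` of `u` and `v`
represent elements at distance at most `K`, for every `t`. -/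
def IsAutomatic (G : Type) [Group G] : Prop :=
  ∃ A : Finset G, Subgroup.closure (A : Set G) = ⊤ ∧ (∀ a ∈ A, a⁻¹ ∈ A) ∧
    ∃ L : Language {a : G // a ∈ A}, L.IsRegular ∧ (∀ g : G, ∃ w ∈ L, val w = g) ∧
      ∃ K : ℕ, ∀ u ∈ L, ∀ v ∈ L, (cayley A).dist (val u) (val v) ≤ 1 →
        ∀ t : ℕ, (cayley A).dist (val (u.take t)) (val (v.take t)) ≤ K

end

end Pool.Agent.Helper943.Comb
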