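import Mathlib
import Pool.Agent.Helper943.Comb.Defs
import Pool.Agent.Helper943.LM.Aut

set_option autoImplicit false

open scoped Classical

namespace Pool.Agent.Helper943.Comb

noncomputable section

theorem cay_adj {G : Type} [Group G] (A : Finset G) (a b : G) :
    (cayley A).Adj a b ↔ a ≠ b ∧ ((∃ s ∈ A, b = a * s) ∨ ∃ s ∈ A, a = b * s) := by
  unfold cayley
  rw [SimpleGraph.fromRel_adj]

/-- left multiplication -/
def cayHom {G : Type} [Group G] (A : Finset G) (g : G) : cayley A →g cayley A where
  toFun a := g * a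
  map_rel' := by
    intro a b h
    rw [cay_adj] at h ⊢
    obtain ⟨hne, h⟩ := h
    refine ⟨fun h' => hne (mul_left_cancel h'), ?_⟩
    rcases h with ⟨s, hs, rfl⟩ | ⟨s, hs, rfl⟩
    · exact Or.inl ⟨s, hs, by rw [mul_assoc]⟩
    · exact Or.inr ⟨s, hs, by rw [mul_assoc]⟩

theorem cay_reach {G : Type} [Group G] (A : Finset G) (g a b : G)
    (h : (cayley A).Reachable a b) : (cayley A).Reachable (g * a) (g * b) :=
  h.map (cayHom A g)

theorem cay_le {G : Type} [Group G] (A : Finset G) (g a b : G)
    (h : (cayley A).Reachable a b) : (cayley A).dist (g * a) (g * b) ≤ (cayley A).dist a b := by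
  obtain ⟨p, hp⟩ := h.exists_walk_length_eq_dist
  rw [← hp]
  have h1 := SimpleGraph.dist_le (p.map (cayHom A g))
  rw [SimpleGraph.Walk.length_map] at h1
  exact h1

theorem cay_conn {G : Type} [Group G] (A : Finset G) (hA : Subgroup.closure (A : Set G) = ⊤)
    (g : G) : (cayley A).Reachable 1 g := by
  have hg : g ∈ Subgroup.closure (A : Set G) := by rw [hA]; trivial
  induction hg using Subgroup.closure_induction with
  | mem x hx =>
    by_cases h : (1 : G) = x
    · rw [← h]
    · apply SimpleGraph.Adj.reachable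
      rw [cay_adj]
      exact ⟨h, Or.inl ⟨x, hx, by rw [one_mul]⟩⟩
  | one => exact SimpleGraph.Reachable.refl _
  | mul x y _ _ hx hy =>
    have h1 := cay_reach A x 1 y hy
    rw [mul_one] at h1
    exact hx.trans h1
  | inv x _ hx =>
    have h1 := cay_reach A x⁻¹ 1 x hx
    rw [mul_one, inv_mul_cancel] at h1
    exact h1.symm

/-- the ball of the Cayley graph is finite -/
theorem cayley_ball {G : Type} [Group G] (A : Finset G) (hA : Subgroup.closure (A : Set G) = ⊤) (K : ℕ) :
    {d : G | (cayley A).dist 1 d ≤ K}.Finite := by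
  induction K with
  | zero =>
    apply (Set.finite_singleton (1 : G)).subset
    intro d hd
    have h1 : (cayley A).dist 1 d = 0 := Nat.le_zero.1 hd
    rw [(cay_conn A hA d).dist_eq_zero_iff] at h1
    exact h1.symm
  | succ K ih =>
    have hfin : (Set.image2 (fun a b => a * b) {d : G | (cayley A).dist 1 d ≤ K}
        ((A : Set G) ∪ (A : Set G).image (fun a => a⁻¹))).Finite :=
      Set.Finite.image2 _ ih (A.finite_toSet.union (A.finite_toSet.image _))
    apply (ih.union hfin).subset
    intro d hd
    have hd' : (cayley A).dist 1 d ≤ K + 1 := hd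
    rcases Nat.lt_or_ge K ((cayley A).dist 1 d) with h | h
    · right
      obtain ⟨p, hp⟩ := (cay_conn A hA d).symm.exists_walk_length_eq_dist
      rw [SimpleGraph.dist_comm] at hp
      have hp' : p.length = K + 1 := by omega
      cases p with
      | nil => simp at hp'
      | cons hadj q =>
        rename_i d'
        rw [SimpleGraph.Walk.length_cons] at hp'
        have hq : (cayley A).dist 1 d' ≤ K := by
          rw [SimpleGraph.dist_comm]
          have := SimpleGraph.dist_le q
          omega
        rw [cay_adj] at hadj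
        rcases hadj.2 with ⟨s, hs, h2⟩ | ⟨s, hs, h2⟩
        · exact ⟨d', hq, s⁻¹, Or.inr ⟨s, hs, rfl⟩, by
            show d' * s⁻¹ = d
            rw [h2]; group⟩
        · exact ⟨d', hq, s, Or.inl hs, h2.symm⟩
    · left
      exact h

theorem cayley_left {G : Type} [Group G] (A : Finset G) (g a b : G) :
    (cayley A).dist (g * a) (g * b) = (cayley A).dist a b := by
  by_cases h : (cayley A).Reachable a b
  · apply le_antisymm (cay_le A g a b h)
    have h1 := cay_le A g⁻¹ (g * a) (g * b) (cay_reach A g a b h)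
    rw [inv_mul_cancel_left, inv_mul_cancel_left] at h1
    exact h1
  · have h1 : ¬ (cayley A).Reachable (g * a) (g * b) := by
      intro h2
      apply h
      have h3 := cay_reach A g⁻¹ _ _ h2
      rwa [inv_mul_cancel_left, inv_mul_cancel_left] at h3
    rw [SimpleGraph.dist_eq_zero_of_not_reachable h, SimpleGraph.dist_eq_zero_of_not_reachable h1]

theorem aut_fin {G : Type} [Group G] (h : IsAutomatic G) :
    ∃ (A : Finset G) (σ : Type) (_ : Fintype σ) (W : DFA {a : G // a ∈ A} σ),
      (∀ g : G, ∃ w ∈ W.accepts, val w = g) ∧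
      ∀ x : Option {a : G // a ∈ A}, ∃ D : Set G, D.Finite ∧ ∀ u v : List {a : G // a ∈ A},
        u ∈ W.accepts → v ∈ W.accepts → val u * (x.map Subtype.val).getD 1 = val v →
        ∀ t : ℕ, (val (u.take t))⁻¹ * val (v.take t) ∈ D := by
  obtain ⟨A, hA, hinv, L, ⟨σ, hσ, W, hW⟩, hsurj, K, hK⟩ := h
  refine ⟨A, σ, hσ, W, ?_, ?_⟩
  · intro g
    obtain ⟨w, hw, hg⟩ := hsurj g
    exact ⟨w, by rw [hW]; exact hw, hg⟩
  · intro x
    refine ⟨{d : G | (cayley A).dist 1 d ≤ K}, cayley_ball A hA K, ?_⟩
    intro u v hu hv hx t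
    rw [hW] at hu hv
    have h1 : (cayley A).dist (val u) (val v) ≤ 1 := by
      by_cases hne : val u = val v
      · rw [hne, SimpleGraph.dist_self]
        exact Nat.zero_le _
      · apply le_of_eq
        rw [SimpleGraph.dist_eq_one_iff_adj, cay_adj]
        refine ⟨hne, Or.inl ?_⟩
        cases x with
        | none =>
          exfalso
          apply hne
          rw [← hx]
          simp
        | some a =>
          exact ⟨a.1, a.2, hx.symm⟩
    have h2 := hK u hu v hv h1 t
    show (cayley A).dist 1 ((val (u.take t))⁻¹ * val (v.take t)) ≤ K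
    have h3 := cayley_left A (val (u.take t))⁻¹ (val (u.take t)) (val (v.take t))
    rw [inv_mul_cancel] at h3
    rw [h3]
    exact h2

open Pool.Agent.Helper943.LM in
theorem autStr_of {G : Type} [Group G] (h : IsAutomatic G) : AutStr G := by
  obtain ⟨A, σ, _, W, h1, h2⟩ := aut_fin h
  refine ⟨{a : G // a ∈ A}, inferInstance, Subtype.val, σ, inferInstance, W, ?_, ?_⟩
  · intro g
    obtain ⟨w, hw, hg⟩ := h1 g
    exact ⟨w, hw, hg⟩
  · intro x
    obtain ⟨D, hD, hD2⟩ := h2 x
    exact autoLemma Subtype.val W _ D hD hD2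

end

end Pool.Agent.Helper943.Comb
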