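import Mathlib
import Pool.Agent.Helper943.Comb.Defs
import Pool.Agent.Helper943.LM.QI

set_option autoImplicit false

open scoped Classical

namespace Pool.Agent.Helper943.LM

open Pool.Agent.Helper943.Comb

noncomputable section

variable {G : Type} [Group G]

/-- radial retraction of the plane onto the disc of radius `t` -/
def rad (t : ℝ) (z : ℂ) : ℂ := if ‖z‖ ≤ t then z else ((t / ‖z‖ : ℝ) : ℂ) * z

/-- vertex at time `t` on the tree path from `1` to `v` -/
def qt (t : ℝ) (v : F) : F := FreeGroup.mk (v.toWord.take ⌊t⌋₊)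

theorem cb_norm_rad (t : ℝ) (ht : 0 ≤ t) (z : ℂ) : ‖rad t z‖ ≤ t := by
  unfold rad
  split_ifs with h
  · exact h
  · push Not at h
    have hz : 0 < ‖z‖ := lt_of_le_of_lt ht h
    rw [norm_mul, Complex.norm_real, Real.norm_eq_abs, abs_of_nonneg (by positivity)]
    rw [div_mul_cancel₀ _ hz.ne']

theorem cb_inner (t : ℝ) (ht : 0 ≤ t) (z w : ℂ) (hw : ‖w‖ ≤ t) :
    (inner ℝ (z - rad t z) (w - rad t z) : ℝ) ≤ 0 := by
  unfold rad
  split_ifs with h
  · simp
  · push Not at h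
    have hz : 0 < ‖z‖ := lt_of_le_of_lt ht h
    obtain ⟨s, hs⟩ : ∃ s : ℝ, s = t / ‖z‖ := ⟨_, rfl⟩
    rw [← hs]
    have hs1 : s ≤ 1 := by rw [hs, div_le_one hz]; exact h.le
    have hsz : s * ‖z‖ = t := by rw [hs]; field_simp
    have e1 : z - (s : ℂ) * z = (1 - s : ℝ) • z := by
      rw [Complex.real_smul]; push_cast; ring
    have e2 : w - (s : ℂ) * z = w - s • z := by rw [Complex.real_smul]
    rw [e1, e2, real_inner_smul_left, inner_sub_right, real_inner_smul_right,
      real_inner_self_eq_norm_sq]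
    have h1 : (inner ℝ z w : ℝ) ≤ ‖z‖ * ‖w‖ := real_inner_le_norm z w
    have h2 : ‖z‖ * ‖w‖ ≤ ‖z‖ * t := mul_le_mul_of_nonneg_left hw hz.le
    have h3 : s * ‖z‖ ^ 2 = ‖z‖ * t := by rw [← hsz]; ring
    have h4 : (inner ℝ z w : ℝ) - s * ‖z‖ ^ 2 ≤ 0 := by rw [h3]; linarith
    exact mul_nonpos_of_nonneg_of_nonpos (by linarith) h4

theorem cb_rad_form (t : ℝ) (ht : 0 ≤ t) (z : ℂ) :
    ∃ g : ℝ, rad t z = (g : ℂ) * z ∧ g * ‖z‖ = min t ‖z‖ := by
  unfold rad
  split_ifs with h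
  · exact ⟨1, by simp, by rw [one_mul, min_eq_right h]⟩
  · push Not at h
    have hz : 0 < ‖z‖ := lt_of_le_of_lt ht h
    refine ⟨t / ‖z‖, rfl, ?_⟩
    rw [div_mul_cancel₀ _ hz.ne', min_eq_left h.le]

theorem cb_take (v : F) (m n : ℕ) (h : m ≤ n) :
    dT (FreeGroup.mk (v.toWord.take m)) (FreeGroup.mk (v.toWord.take n)) ≤ n - m := by
  obtain ⟨k, rfl⟩ := Nat.exists_eq_add_of_le h
  rw [List.take_add, ← FreeGroup.mul_mk]
  unfold dT
  rw [inv_mul_cancel_left]
  refine FreeGroup.norm_mk_le.trans ?_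
  rw [List.length_take]
  omega

theorem cb_app (n : ℕ) (l : List (Bool × Bool)) (a : Bool × Bool) :
    dT (FreeGroup.mk (l.take n)) (FreeGroup.mk ((l ++ [a]).take n)) ≤ 1 := by
  by_cases h : n ≤ l.length
  · rw [List.take_append_of_le_length h, dT_self]
    omega
  · have h1 : l.take n = l := List.take_of_length_le (by omega)
    have h2 : (l ++ [a]).take n = l ++ [a] :=
      List.take_of_length_le (by rw [List.length_append, List.length_singleton]; omega)
    rw [h1, h2, ← FreeGroup.mul_mk]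
    unfold dT
    rw [inv_mul_cancel_left]
    exact FreeGroup.norm_mk_le

theorem cb_step (n : ℕ) (v : F) (a : Bool × Bool) :
    dT (FreeGroup.mk (v.toWord.take n))
      (FreeGroup.mk ((v * FreeGroup.mk [a]).toWord.take n)) ≤ 1 := by
  have hv : v = FreeGroup.mk v.toWord := FreeGroup.mk_toWord.symm
  have hvr : FreeGroup.IsReduced v.toWord := FreeGroup.isReduced_toWord
  by_cases hR : FreeGroup.IsReduced (v.toWord ++ [a])
  · have h1 : (v * FreeGroup.mk [a]).toWord = v.toWord ++ [a] := by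
      conv_lhs => rw [hv, FreeGroup.mul_mk, FreeGroup.toWord_mk]
      exact hR.reduce_eq
    rw [h1]
    exact cb_app n _ a
  · have h2 : ∃ x ∈ v.toWord.getLast?, ¬ (x.1 = a.1 → x.2 = a.2) := by
      by_contra hcon
      push Not at hcon
      apply hR
      unfold FreeGroup.IsReduced
      rw [List.isChain_append]
      refine ⟨hvr, List.isChain_singleton a, ?_⟩
      intro x hx y hy
      have : y = a := by simpa using hy.symm
      rw [this]
      exact hcon x hx
    obtain ⟨x, hx, hxa⟩ := h2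
    push Not at hxa
    obtain ⟨l, hl⟩ := List.getLast?_eq_some_iff.mp hx
    have h3 : v * FreeGroup.mk [a] = FreeGroup.mk l := by
      conv_lhs => rw [hv, hl, ← FreeGroup.mul_mk, mul_assoc]
      have h4 : (FreeGroup.mk [x] : F) * FreeGroup.mk [a] = 1 := by
        have h5 : x = (a.1, !a.2) := by
          apply Prod.ext
          · exact hxa.1
          · have := hxa.2
            cases hx2 : x.2 <;> cases ha2 : a.2 <;> simp_all
        have h6 : (FreeGroup.mk [x] : F) = (FreeGroup.mk [a])⁻¹ := by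
          rw [FreeGroup.inv_mk, h5]
          rfl
        rw [h6, inv_mul_cancel]
      rw [h4, mul_one]
    have h7 : (v * FreeGroup.mk [a]).toWord = l := by
      rw [h3, FreeGroup.toWord_mk]
      apply FreeGroup.IsReduced.reduce_eq
      rw [hl] at hvr
      exact List.IsChain.left_of_append hvr
    rw [h7, hl, dT_comm]
    exact cb_app n l x

theorem cb_lip (n : ℕ) (L : List (Bool × Bool)) : ∀ v : F,
    dT (FreeGroup.mk (v.toWord.take n))
      (FreeGroup.mk ((v * FreeGroup.mk L).toWord.take n)) ≤ L.length := by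
  induction L with
  | nil =>
    intro v
    have : (FreeGroup.mk [] : F) = 1 := rfl
    rw [this, mul_one, dT_self]
    exact Nat.zero_le _
  | cons a L ih =>
    intro v
    have h1 : v * FreeGroup.mk (a :: L) = (v * FreeGroup.mk [a]) * FreeGroup.mk L := by
      rw [mul_assoc]
      rfl
    rw [h1]
    have h2 := cb_step n v a
    have h3 := ih (v * FreeGroup.mk [a])
    have h4 := dT_tri (FreeGroup.mk (v.toWord.take n))
      (FreeGroup.mk ((v * FreeGroup.mk [a]).toWord.take n))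
      (FreeGroup.mk ((v * FreeGroup.mk [a] * FreeGroup.mk L).toWord.take n))
    rw [List.length_cons]
    omega

theorem rad_lip (t : ℝ) (ht : 0 ≤ t) (z z' : ℂ) : ‖rad t z - rad t z'‖ ≤ ‖z - z'‖ := by
  have A0 := cb_inner t ht z (rad t z') (cb_norm_rad t ht z')
  have B := cb_inner t ht z' (rad t z) (cb_norm_rad t ht z)
  have A : 0 ≤ (inner ℝ (z - rad t z) (rad t z - rad t z') : ℝ) := by
    rw [← neg_sub (rad t z) (rad t z'), inner_neg_right] at A0
    linarith
  have h1 : (inner ℝ ((z - rad t z) - (z' - rad t z') + (rad t z - rad t z'))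
      (rad t z - rad t z') : ℝ) = inner ℝ (z - rad t z) (rad t z - rad t z') -
      inner ℝ (z' - rad t z') (rad t z - rad t z') + ‖rad t z - rad t z'‖ ^ 2 := by
    rw [inner_add_left, inner_sub_left, real_inner_self_eq_norm_sq]
  have E : (z - rad t z) - (z' - rad t z') + (rad t z - rad t z') = z - z' := by ring
  rw [E] at h1
  have h2 : (inner ℝ (z - z') (rad t z - rad t z') : ℝ) ≤ ‖z - z'‖ * ‖rad t z - rad t z'‖ :=
    real_inner_le_norm _ _
  have h3 : ‖rad t z - rad t z'‖ ^ 2 ≤ ‖z - z'‖ * ‖rad t z - rad t z'‖ := by linarith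
  rcases (norm_nonneg (rad t z - rad t z')).eq_or_lt with h4 | h4
  · rw [← h4]; exact norm_nonneg _
  · rw [sq] at h3
    exact le_of_mul_le_mul_right h3 h4
theorem rad_time (s t : ℝ) (hs : 0 ≤ s) (ht : 0 ≤ t) (z : ℂ) : ‖rad s z - rad t z‖ ≤ |s - t| := by
  obtain ⟨g, hg, hg2⟩ := cb_rad_form s hs z
  obtain ⟨g', hg', hg2'⟩ := cb_rad_form t ht z
  rw [hg, hg', ← sub_mul, ← Complex.ofReal_sub, norm_mul, Complex.norm_real, Real.norm_eq_abs]
  have h1 : |g - g'| * ‖z‖ = |min s ‖z‖ - min t ‖z‖| := by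
    rw [← hg2, ← hg2', ← sub_mul, abs_mul, abs_of_nonneg (norm_nonneg z)]
  rw [h1]
  refine (abs_min_sub_min_le_max s ‖z‖ t ‖z‖).trans ?_
  simp
theorem qt_lip (t : ℝ) (v v' : F) : dT (qt t v) (qt t v') ≤ dT v v' := by
  have h := cb_lip ⌊t⌋₊ (v⁻¹ * v').toWord v
  rw [FreeGroup.mk_toWord, mul_inv_cancel_left] at h
  exact h
theorem qt_time (s t : ℝ) (hs : 0 ≤ s) (ht : 0 ≤ t) (v : F) : (dT (qt s v) (qt t v) : ℝ) ≤ |s - t| + 1 := by
  have key : ∀ s t : ℝ, 0 ≤ s → s ≤ t → (dT (qt s v) (qt t v) : ℝ) ≤ |s - t| + 1 := by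
    intro s t hs hst
    have h1 := cb_take v ⌊s⌋₊ ⌊t⌋₊ (Nat.floor_mono hst)
    have h2 : (dT (qt s v) (qt t v) : ℝ) ≤ ((⌊t⌋₊ - ⌊s⌋₊ : ℕ) : ℝ) := by
      exact_mod_cast h1
    rw [Nat.cast_sub (Nat.floor_mono hst)] at h2
    have h3 := Nat.floor_le (hs.trans hst)
    have h4 := Nat.lt_floor_add_one s
    rw [abs_of_nonpos (by linarith)]
    linarith
  rcases le_total s t with h | h
  · exact key s t hs h
  · rw [dT_comm, abs_sub_comm]
    exact key t s ht h
theorem qt_end (t : ℝ) (v : F) (h : (dT 1 v : ℝ) ≤ t) : qt t v = v := by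
  have h1 : dT 1 v = v.toWord.length := by
    unfold dT
    rw [inv_one, one_mul]
    rfl
  rw [h1] at h
  have h2 : v.toWord.length ≤ ⌊t⌋₊ := Nat.le_floor h
  unfold qt
  rw [List.take_of_length_le h2, FreeGroup.mk_toWord]

theorem TP.combable (T : TP G) {X : Type} [PseudoMetricSpace X] (x₀ : X) (f : G → X) (K C : ℝ)
    (h1 : ∀ a b : G, dist (f a) (f b) ≤ K * (T.nm (a⁻¹ * b) + ‖T.p (a⁻¹ * b)‖) + C)
    (h2 : ∀ a b : G, T.nm (a⁻¹ * b) + ‖T.p (a⁻¹ * b)‖ ≤ K * dist (f a) (f b) + C)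
    (h3 : ∀ x : X, ∃ a : G, dist (f a) x ≤ C) : IsCombable X x₀ := by
  classical
  choose a ha using h3
  have hC : 0 ≤ C := dist_nonneg.trans (ha x₀)
  obtain ⟨K', hK'⟩ : ∃ K' : ℝ, K' = max K 1 := ⟨_, rfl⟩
  have hK1 : 1 ≤ K' := by rw [hK']; exact le_max_right _ _
  have hKK : K ≤ K' := by rw [hK']; exact le_max_left _ _
  have hN1 : ∀ a b : G, dist (f a) (f b) ≤
      K' * ((dT (T.vx a) (T.vx b) : ℝ) + ‖T.p b - T.p a‖) + C := by
    intro a b
    have h := h1 a b
    rw [T.nm_inv_mul, T.norm_p_inv_mul] at h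
    have h0 : (0 : ℝ) ≤ (dT (T.vx a) (T.vx b) : ℝ) + ‖T.p b - T.p a‖ := by positivity
    have := mul_le_mul_of_nonneg_right hKK h0
    linarith
  have hN2 : ∀ a b : G, (dT (T.vx a) (T.vx b) : ℝ) + ‖T.p b - T.p a‖ ≤
      K' * dist (f a) (f b) + C := by
    intro a b
    have h := h2 a b
    rw [T.nm_inv_mul, T.norm_p_inv_mul] at h
    have := mul_le_mul_of_nonneg_right hKK (dist_nonneg (x := f a) (y := f b))
    linarith
  have hcov : ∀ (x : X) (t : ℝ), ∃ g : G, T.vx g = qt t (T.vx (a x)) ∧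
      ‖T.p g - rad t (T.p (a x))‖ ≤ 2 := fun x t => T.cov _ _
  choose g hg1 hg2 using hcov
  have hD : ∀ x y s t, dist (f (g x s)) (f (g y t)) ≤
      K' * ((dT (qt s (T.vx (a x))) (qt t (T.vx (a y))) : ℝ) +
        ‖rad t (T.p (a y)) - rad s (T.p (a x))‖ + 4) + C := by
    intro x y s t
    have h := hN1 (g x s) (g y t)
    rw [hg1, hg1] at h
    have e1 : ‖T.p (g y t) - T.p (g x s)‖ ≤
        ‖rad t (T.p (a y)) - rad s (T.p (a x))‖ + 4 := by
      have e : T.p (g y t) - T.p (g x s) = (T.p (g y t) - rad t (T.p (a y))) +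
          (rad t (T.p (a y)) - rad s (T.p (a x))) - (T.p (g x s) - rad s (T.p (a x))) := by ring
      rw [e]
      refine (norm_sub_le _ _).trans ?_
      have := norm_add_le (T.p (g y t) - rad t (T.p (a y)))
        (rad t (T.p (a y)) - rad s (T.p (a x)))
      linarith [hg2 x s, hg2 y t]
    have h4 : K' * ((dT (qt s (T.vx (a x))) (qt t (T.vx (a y))) : ℝ) +
        ‖T.p (g y t) - T.p (g x s)‖) ≤ K' * ((dT (qt s (T.vx (a x))) (qt t (T.vx (a y))) : ℝ) +
        ‖rad t (T.p (a y)) - rad s (T.p (a x))‖ + 4) :=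
      mul_le_mul_of_nonneg_left (by linarith) (by linarith)
    linarith
  obtain ⟨b, hb⟩ : ∃ b : X → ℝ, ∀ x, b x = max (dT 1 (T.vx (a x)) : ℝ) ‖T.p (a x)‖ + 1 :=
    ⟨_, fun _ => rfl⟩
  have hbn : ∀ x, (dT 1 (T.vx (a x)) : ℝ) ≤ b x := fun x => by
    rw [hb]; linarith [le_max_left (dT 1 (T.vx (a x)) : ℝ) ‖T.p (a x)‖]
  have hbz : ∀ x, ‖T.p (a x)‖ ≤ b x := fun x => by
    rw [hb]; linarith [le_max_right (dT 1 (T.vx (a x)) : ℝ) ‖T.p (a x)‖]
  have hb0 : ∀ x, 0 < b x := fun x => by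
    rw [hb]
    have : (0 : ℝ) ≤ max (dT 1 (T.vx (a x)) : ℝ) ‖T.p (a x)‖ :=
      (norm_nonneg _).trans (le_max_right _ _)
    linarith
  obtain ⟨P, hP⟩ : ∃ P : X → ℝ → X, ∀ x t, P x t =
      if t ≤ 0 then x₀ else if t < b x then f (g x t) else x := ⟨_, fun _ _ => rfl⟩
  obtain ⟨C1, hC1⟩ : ∃ C1 : ℝ, C1 = dist x₀ (f 1) + 2 * K' + 2 * C := ⟨_, rfl⟩
  have hC10 : 0 ≤ C1 := by
    rw [hC1]
    have := dist_nonneg (x := x₀) (y := f 1)
    linarith
  have hPb : ∀ x, P x (b x) = x := by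
    intro x
    rw [hP, if_neg (not_le.mpr (hb0 x)), if_neg (lt_irrefl _)]
  have hP0 : ∀ x, P x 0 = x₀ := by
    intro x
    rw [hP, if_pos le_rfl]
  have hA : ∀ x t, 0 ≤ t → dist (P x (min t (b x))) (f (g x t)) ≤ C1 := by
    intro x t ht
    rcases ht.eq_or_lt with h0 | h0
    · rw [← h0, min_eq_left (hb0 x).le, hP0]
      have e1 := dist_triangle x₀ (f 1) (f (g x 0))
      have e2 := hN1 1 (g x 0)
      rw [hg1, T.vx_one, T.p_one, sub_zero] at e2
      have e3 : qt 0 (T.vx (a x)) = 1 := by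
        unfold qt
        rw [Nat.floor_zero, List.take_zero]
        rfl
      rw [e3, dT_self] at e2
      have e4 : ‖T.p (g x 0)‖ ≤ 2 := by
        have e5 := cb_norm_rad 0 le_rfl (T.p (a x))
        have e6 := hg2 x 0
        have e7 : ‖T.p (g x 0)‖ ≤ ‖T.p (g x 0) - rad 0 (T.p (a x))‖ + ‖rad 0 (T.p (a x))‖ := by
          have := norm_add_le (T.p (g x 0) - rad 0 (T.p (a x))) (rad 0 (T.p (a x)))
          rwa [sub_add_cancel] at this
        linarith
      have e8 : K' * (((0 : ℕ) : ℝ) + ‖T.p (g x 0)‖) ≤ K' * 2 := by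
        apply mul_le_mul_of_nonneg_left _ (by linarith)
        push_cast
        linarith
      linarith
    · by_cases hbt : t < b x
      · rw [min_eq_left hbt.le, hP, if_neg (not_le.mpr h0), if_pos hbt, dist_self]
        exact hC10
      · push Not at hbt
        rw [min_eq_right hbt, hPb]
        have e1 := dist_triangle x (f (a x)) (f (g x t))
        rw [dist_comm x (f (a x))] at e1
        have e2 := hN1 (a x) (g x t)
        rw [hg1, qt_end t _ ((hbn x).trans hbt), dT_self] at e2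
        have e3 : rad t (T.p (a x)) = T.p (a x) := by
          unfold rad
          rw [if_pos ((hbz x).trans hbt)]
        have e4 := hg2 x t
        rw [e3] at e4
        have e8 : K' * (((0 : ℕ) : ℝ) + ‖T.p (g x t) - T.p (a x)‖) ≤ K' * 2 := by
          apply mul_le_mul_of_nonneg_left _ (by linarith)
          push_cast
          linarith
        have e9 := ha x
        have e10 := dist_nonneg (x := x₀) (y := f 1)
        linarith
  have hbrk : ∀ x s t, 0 ≤ s → s ≤ b x → 0 ≤ t → t ≤ b x →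
      dist (P x s) (P x t) ≤ 2 * K' * |s - t| + (2 * C1 + 5 * K' + C) := by
    intro x s t hs hsb ht htb
    have e1 := hA x s hs
    rw [min_eq_left hsb] at e1
    have e2 := hA x t ht
    rw [min_eq_left htb] at e2
    have e3 := hD x x s t
    have e4 := qt_time s t hs ht (T.vx (a x))
    have e5 := rad_time t s ht hs (T.p (a x))
    rw [abs_sub_comm] at e5
    have e6 := dist_triangle4 (P x s) (f (g x s)) (f (g x t)) (P x t)
    rw [dist_comm (f (g x t))] at e6
    have e7 : K' * ((dT (qt s (T.vx (a x))) (qt t (T.vx (a x))) : ℝ) +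
        ‖rad t (T.p (a x)) - rad s (T.p (a x))‖ + 4) ≤ K' * (2 * |s - t| + 5) :=
      mul_le_mul_of_nonneg_left (by linarith) (by linarith)
    have e8 : K' * (2 * |s - t| + 5) = 2 * K' * |s - t| + 5 * K' := by ring
    linarith
  let σ : X → BrokenPath x₀ (2 * K') (2 * C1 + 5 * K' + C) := fun x =>
    { b := b x
      b_nonneg := (hb0 x).le
      toFun := P x
      start := hP0 x
      broken := hbrk x }
  have hext : ∀ x t, (σ x).ext t = P x (min t (b x)) := fun _ _ => rfl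
  have hσb : ∀ x, (σ x).b = b x := fun _ => rfl
  obtain ⟨Nn, hNn⟩ : ∃ Nn : X → X → ℝ, ∀ x y, Nn x y =
      (dT (T.vx (a x)) (T.vx (a y)) : ℝ) + ‖T.p (a y) - T.p (a x)‖ := ⟨_, fun _ _ => rfl⟩
  have hU : ∀ x y t, 0 ≤ t → dist ((σ x).ext t) ((σ y).ext t) ≤
      2 * C1 + K' * (Nn x y + 4) + C := by
    intro x y t ht
    rw [hext, hext]
    have e1 := hA x t ht
    have e2 := hA y t ht
    have e3 := hD x y t t
    have e4 : (dT (qt t (T.vx (a x))) (qt t (T.vx (a y))) : ℝ) ≤ dT (T.vx (a x)) (T.vx (a y)) := by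
      exact_mod_cast qt_lip t (T.vx (a x)) (T.vx (a y))
    have e5 := rad_lip t ht (T.p (a y)) (T.p (a x))
    have e6 := dist_triangle4 (P x (min t (b x))) (f (g x t)) (f (g y t)) (P y (min t (b y)))
    rw [dist_comm (f (g y t))] at e6
    have e7 : K' * ((dT (qt t (T.vx (a x))) (qt t (T.vx (a y))) : ℝ) +
        ‖rad t (T.p (a y)) - rad t (T.p (a x))‖ + 4) ≤ K' * (Nn x y + 4) := by
      apply mul_le_mul_of_nonneg_left _ (by linarith)
      rw [hNn]
      linarith
    linarith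
  have hbd : ∀ x y, |b x - b y| ≤ Nn x y := by
    intro x y
    have e1 : b x - b y = max (dT 1 (T.vx (a x)) : ℝ) ‖T.p (a x)‖ -
        max (dT 1 (T.vx (a y)) : ℝ) ‖T.p (a y)‖ := by
      rw [hb, hb]; ring
    rw [e1]
    refine (abs_max_sub_max_le_max _ _ _ _).trans ?_
    rw [hNn]
    apply max_le
    · have t1 := dT_tri 1 (T.vx (a x)) (T.vx (a y))
      have t2 := dT_tri 1 (T.vx (a y)) (T.vx (a x))
      rw [dT_comm (T.vx (a y)) (T.vx (a x))] at t2
      have t1' : (dT 1 (T.vx (a y)) : ℝ) ≤ dT 1 (T.vx (a x)) + dT (T.vx (a x)) (T.vx (a y)) := by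
        exact_mod_cast t1
      have t2' : (dT 1 (T.vx (a x)) : ℝ) ≤ dT 1 (T.vx (a y)) + dT (T.vx (a x)) (T.vx (a y)) := by
        exact_mod_cast t2
      have t3 := norm_nonneg (T.p (a y) - T.p (a x))
      rw [abs_le]
      constructor <;> linarith
    · have t1 := abs_norm_sub_norm_le (T.p (a x)) (T.p (a y))
      rw [norm_sub_rev] at t1
      have t2 : (0 : ℝ) ≤ dT (T.vx (a x)) (T.vx (a y)) := Nat.cast_nonneg _
      linarith
  have hNd : ∀ x y, Nn x y ≤ K' * dist x y + (2 * K' * C + C) := by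
    intro x y
    have e1 := hN2 (a x) (a y)
    rw [← hNn] at e1
    have e2 := dist_triangle4 (f (a x)) x y (f (a y))
    rw [dist_comm y (f (a y))] at e2
    have e3 := ha x
    have e4 := ha y
    have e5 : K' * dist (f (a x)) (f (a y)) ≤ K' * (dist x y + 2 * C) :=
      mul_le_mul_of_nonneg_left (by linarith) (by linarith)
    have e6 : K' * (dist x y + 2 * C) = K' * dist x y + 2 * K' * C := by ring
    linarith
  have hcc : 0 ≤ (K' + 1) * (2 * K' * C + C) + (2 * C1 + 4 * K' + C) := by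
    have : 0 ≤ K' := by linarith
    positivity
  have hne : Nonempty {t : ℝ // 0 ≤ t} := ⟨⟨0, le_rfl⟩⟩
  refine ⟨2 * K', 2 * C1 + 5 * K' + C, by linarith, by linarith, σ, fun x => hPb x,
    (K' + 1) * K', (K' + 1) * (2 * K' * C + C) + (2 * C1 + 4 * K' + C), by nlinarith, hcc,
    fun x y => ⟨?_, ?_⟩⟩
  · have hbdd : BddAbove (Set.range fun t : {t : ℝ // 0 ≤ t} =>
        dist ((σ x).ext t) ((σ y).ext t)) := by
      refine ⟨2 * C1 + K' * (Nn x y + 4) + C, ?_⟩
      rintro _ ⟨t, rfl⟩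
      exact hU x y t t.2
    have hT0 : 0 ≤ max (b x) (b y) := (hb0 x).le.trans (le_max_left _ _)
    have e1 := le_ciSup hbdd ⟨max (b x) (b y), hT0⟩
    simp only [hext] at e1
    rw [min_eq_right (le_max_left _ _), min_eq_right (le_max_right _ _), hPb, hPb] at e1
    have e2 : dist x y ≤ dP (σ x) (σ y) := by
      unfold dP
      simp only [hext]
      have := abs_nonneg ((σ x).b - (σ y).b)
      linarith
    have e3 : ((K' + 1) * K')⁻¹ ≤ 1 := inv_le_one_of_one_le₀ (by nlinarith)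
    have e4 : ((K' + 1) * K')⁻¹ * dist x y ≤ 1 * dist x y :=
      mul_le_mul_of_nonneg_right e3 dist_nonneg
    linarith
  · have e1 : (⨆ t : {t : ℝ // 0 ≤ t}, dist ((σ x).ext t) ((σ y).ext t)) ≤
        2 * C1 + K' * (Nn x y + 4) + C := ciSup_le fun t => hU x y t t.2
    have e2 := hbd x y
    have e3 := hNd x y
    have e4 : dP (σ x) (σ y) ≤ 2 * C1 + K' * (Nn x y + 4) + C + Nn x y := by
      unfold dP
      rw [hσb, hσb]
      linarith
    have e5 : (K' + 1) * Nn x y ≤ (K' + 1) * (K' * dist x y + (2 * K' * C + C)) :=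
      mul_le_mul_of_nonneg_left e3 (by linarith)
    have e6 : (K' + 1) * (K' * dist x y + (2 * K' * C + C)) =
      (K' + 1) * K' * dist x y + (K' + 1) * (2 * K' * C + C) := by ring
    have e7 : 2 * C1 + K' * (Nn x y + 4) + C + Nn x y =
      (K' + 1) * Nn x y + (2 * C1 + 4 * K' + C) := by ring
    linarith

theorem vertex_dist {S : Finset G} {hS : Subgroup.closure (S : Set G) = ⊤} (a b : G) :
    dist (vertex S hS a) (vertex S hS b) = ((cayley S).dist a b : ℝ) := by
  have e : dist (vertex S hS a) (vertex S hS b) =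
      CayPt.d (S := S) (hS := hS) ⟨a, a, 0, le_rfl, zero_le_one, Or.inr ⟨rfl, rfl⟩⟩
        ⟨b, b, 0, le_rfl, zero_le_one, Or.inr ⟨rfl, rfl⟩⟩ :=
    SeparationQuotient.dist_mk _ _
  rw [e]
  unfold CayPt.d
  by_cases h : a = b
  · subst h; simp
  · simp only [h, false_and, if_false]
    unfold CayPt.via
    simp only [zero_add, add_zero, sub_zero]
    have h0 : (0 : ℝ) ≤ (cayley S).dist a b := Nat.cast_nonneg _
    rw [min_eq_left (by linarith : ((cayley S).dist a b : ℝ) ≤ (cayley S).dist a b + 1)]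
    rw [min_eq_left (a := 1 + ((cayley S).dist a b : ℝ)) (by linarith)]
    rw [min_eq_left (by linarith)]

theorem vertex_near {S : Finset G} {hS : Subgroup.closure (S : Set G) = ⊤} (x : CayleyGraph S hS) :
    ∃ a : G, dist (vertex S hS a) x ≤ 1 := by
  obtain ⟨p, rfl⟩ := SeparationQuotient.surjective_mk x
  refine ⟨p.v, ?_⟩
  have e : dist (vertex S hS p.v) (SeparationQuotient.mk p : CayleyGraph S hS) =
      CayPt.d (S := S) (hS := hS) ⟨p.v, p.v, 0, le_rfl, zero_le_one, Or.inr ⟨rfl, rfl⟩⟩ p :=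
    SeparationQuotient.dist_mk _ _
  rw [e]
  refine (CayPt.d_le_via _ _).trans ?_
  unfold CayPt.via
  refine (min_le_left _ _).trans ((min_le_left _ _).trans ?_)
  simp only [SimpleGraph.dist_self, Nat.cast_zero, zero_add]
  exact p.t_le_one

theorem combable_of_TP (T : TP G) : IsCombableGroup G := by
  obtain ⟨S, hS, h1, h2, h3⟩ := T.wdist
  refine ⟨S, hS, ?_⟩
  refine T.combable (vertex S hS 1) (fun g => vertex S hS g) 6 2 ?_ ?_ ?_
  · intro a b
    rw [vertex_dist]
    have := h1 a b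
    have e : ((cayley S).dist a b : ℝ) = wd S a b := rfl
    rw [e]
    have h4 : (0 : ℝ) ≤ T.nm (a⁻¹ * b) := Nat.cast_nonneg _
    have h5 := norm_nonneg (T.p (a⁻¹ * b))
    linarith
  · intro a b
    rw [vertex_dist]
    have e : ((cayley S).dist a b : ℝ) = wd S a b := rfl
    rw [e]
    have h4 := h2 a b
    have h5 := h3 a b
    linarith
  · intro x
    obtain ⟨a, ha⟩ := vertex_near x
    exact ⟨a, by linarith⟩

end

end Pool.Agent.Helper943.LM
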